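import Pool.Agent.helper76.UFG.Spec

set_option autoImplicit false

namespace Pool.Agent.UFG

open Finset NumberField nonZeroDivisors Pool.Agent.UF

/-- `I` becomes principal in some cyclotomic field `L = Q(zeta_n)` containing `K`. -/
def BecomesPrincipal {K : Type} [Field K] [NumberField K] (I : Ideal (𝓞 K)) : Prop :=
  ∃ (n : ℕ) (L : Type) (_ : Field L) (_ : NumberField L) (_ : IsCyclotomicExtension {n} ℚ L) (_ : Algebra K L),
    0 < n ∧ (I.map (algebraMap (𝓞 K) (𝓞 L))).IsPrincipal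

theorem BecomesPrincipal.of_isPrincipal {m : ℕ} {K : Type} [Field K] [NumberField K]
    [IsCyclotomicExtension {2 ^ (m + 1)} ℚ K] {I : Ideal (𝓞 K)} (h : I.IsPrincipal) : BecomesPrincipal I := by
  refine ⟨2 ^ (m + 1), K, inferInstance, inferInstance, inferInstance, Algebra.id K, by positivity, ?_⟩
  change (Ideal.map (RingHom.id (𝓞 K)) I).IsPrincipal
  rw [Ideal.map_id]
  exact h

/-- final form of CP1 -/
def FP1_stmt : Prop :=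
  ∀ (m : ℕ) (K : Type) [Field K] [NumberField K] [IsCyclotomicExtension {2 ^ (m + 1)} ℚ K] (z : 𝓞 K),
    IsPrimitiveRoot z (2 ^ (m + 1)) → ∀ I : Ideal (𝓞 K), I ∣ Ideal.span {2 - z} → BecomesPrincipal I →
      I = ⊤ ∨ I = Ideal.span {2 - z}

theorem fer_prime_le (m : ℕ) (hm : m ≤ 4) : Nat.Prime (fer m) := by
  have : m = 0 ∨ m = 1 ∨ m = 2 ∨ m = 3 ∨ m = 4 := by omega
  rcases this with rfl | rfl | rfl | rfl | rfl <;> norm_num [fer]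

theorem prime_case {K : Type} [Field K] [NumberField K] {x : 𝓞 K} (hx : Prime x) (I : Ideal (𝓞 K))
    (hI : I ∣ Ideal.span {x}) : I = ⊤ ∨ I = Ideal.span {x} := by
  have h1 : (Ideal.span {x}).IsPrime := (Ideal.span_singleton_prime hx.ne_zero).mpr hx
  have h2 : Ideal.span {x} ≠ ⊥ := by
    rw [Ne, Ideal.span_singleton_eq_bot]; exact hx.ne_zero
  have h3 : (Ideal.span {x}).IsMaximal := h1.isMaximal h2
  have h4 : Ideal.span {x} ≤ I := Ideal.le_of_dvd hI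
  by_cases h5 : I = ⊤
  · exact Or.inl h5
  · exact Or.inr (h3.eq_of_le h5 h4).symm

theorem FP1 (hPRI : PRI_stmt) (hDVN : DVN_stmt) (hCP1 : CP1_stmt) : FP1_stmt := by
  intro m K _ _ _ z hz I hI hb
  by_cases hm : m ≤ 4
  · exact prime_case (hPRI m K z hz (fer_prime_le m hm)) I hI
  · obtain ⟨n, L, _, _, _, _, hn, hp⟩ := hb
    exact hCP1 m n K L z hz hn.ne' (hDVN m n K L (by omega) hn.ne') I hI hp

theorem FTF (hPRI : PRI_stmt) (hPRC : PRC_stmt) (hDVN : DVN_stmt) (hTF1 : TF1_stmt)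
    (hTF2 : TF2_stmt) (hBAS : BAS_stmt) (hQUK : QUK_stmt) (m : ℕ) (K : Type) [Field K] [NumberField K]
    [IsCyclotomicExtension {2 ^ (m + 1)} ℚ K] (z : 𝓞 K) (hz : IsPrimitiveRoot z (2 ^ (m + 1))) :
    List.TFAE [Nat.Prime (fer m), Prime (2 - z), Uniq ((fer m : ℕ) : 𝓞 K),
      (∃ P : Ideal (𝓞 K), P.IsPrime ∧ ((fer m : ℕ) : 𝓞 K) ∈ P ∧ P.IsPrincipal),
      (∃ P : Ideal (𝓞 K), P.IsPrime ∧ ((fer m : ℕ) : 𝓞 K) ∈ P ∧ BecomesPrincipal P)] := by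
  tfae_have 1 → 2 := hPRI m K z hz
  tfae_have 2 → 1 := hPRC m K z hz
  tfae_have 3 ↔ 1 := hTF1 m K
  tfae_have 2 → 4 := by
    intro h
    refine ⟨Ideal.span {2 - z}, (Ideal.span_singleton_prime h.ne_zero).mpr h, ?_, ⟨⟨2 - z, rfl⟩⟩⟩
    rw [Ideal.mem_span_singleton]
    have h1 := (hQUK (2 ^ m) 1 2 (𝓞 K) z (Nat.one_le_two_pow) le_rfl (by
      rw [one_mul]; exact hBAS m K z hz)).2
    have h2 : ff 2 z 1 = 2 - z := by simp [ff]
    rw [h2] at h1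
    exact h1
  tfae_have 4 → 5 := fun ⟨P, h1, h2, h3⟩ => ⟨P, h1, h2, BecomesPrincipal.of_isPrincipal (m := m) h3⟩
  tfae_have 5 → 1 := by
    rintro ⟨P, h1, h2, n, L, _, _, _, _, hn, hp⟩
    by_cases hm : m ≤ 4
    · exact fer_prime_le m hm
    · exact hTF2 m n K L hn.ne' (hDVN m n K L (by omega) hn.ne') P h1 h2 hp
  tfae_finish

/-- final form of CP2 -/
def FP2_stmt : Prop :=
  ∀ (m c r : ℕ) (K : Type) [Field K] [NumberField K] [IsCyclotomicExtension {2 ^ (m + 1)} ℚ K] (z : 𝓞 K)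
    (b : 𝓞 K ≃+* 𝓞 K), IsPrimitiveRoot z (2 ^ (m + 1)) → b z * z = 1 → 1 ≤ r →
    (32 * r) ^ ((2 ^ (2 ^ c) + 1) ^ (2 * r) + r) < 2 ^ m →
    ∀ s : Multiset ℕ, Multiset.card s ≤ r → (∀ t ∈ s, Odd t) → ∀ I : Ideal (𝓞 K),
    I ∣ Ideal.span {(s.map (ff (2 ^ (2 ^ c)) z)).prod} → BecomesPrincipal I →
    ∃ s' ≤ s, I.map b * Ideal.span {(s'.map (ff (2 ^ (2 ^ c)) z)).prod} =
      I * Ideal.span {b (s'.map (ff (2 ^ (2 ^ c)) z)).prod}

theorem FP2 (hBSN : BSN_stmt) (hDVN : DVN_stmt) (hCP2 : CP2_stmt) : FP2_stmt := by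
  intro m c r K _ _ _ z b hz hb hr hbd s hs hodd I hI hp
  obtain ⟨n, L, _, _, _, _, hn, hp⟩ := hp
  have hbb : IsBar z b := by
    refine ⟨hb, fun a => ?_⟩
    have h1 : b (b z) * b z = 1 := by rw [← map_mul, hb, map_one]
    have h2 : b (b z) = z := by
      calc b (b z) = b (b z) * (b z * z) := by rw [hb, mul_one]
        _ = z := by rw [← mul_assoc, h1, one_mul]
    exact (hBSN _ K z (by positivity) hz).ext ((b : 𝓞 K →+* 𝓞 K).comp (b : 𝓞 K →+* 𝓞 K)) (RingHom.id _) h2 a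
  have hm : 1 ≤ m := by
    by_contra h
    have h0 : m = 0 := by omega
    subst h0
    have : 1 ≤ (32 * r) ^ ((2 ^ (2 ^ c) + 1) ^ (2 * r) + r) := Nat.one_le_pow _ _ (by omega)
    simp at hbd
    omega
  exact hCP2 m c r n K L z b hz hbb hr hbd hn.ne' (hDVN m n K L hm hn.ne') s hs hodd I hI hp

/-- the assembly: all rows -/
theorem asm (BAS : BAS_stmt) (BIN : BIN_stmt) (CPR : CPR_stmt) (QUK : QUK_stmt) (QUO : QUO_stmt)
    (U : U_stmt) (CO2 : CO2_stmt) (CLS : CLS_stmt) (IRR : IRR_stmt) (CMP : CMP_stmt) (ANI : ANI_stmt) (RL2 : RL2_stmt)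
    (RAR : RAR_stmt)
    (BSN : BSN_stmt) (BLE : BLE_stmt) (BCJ : BSN_stmt → BCJ_stmt) (KRO : BSN_stmt → KRO_stmt) (FIX : BSN_stmt → FIX_stmt)
    (IN1 : IN1_stmt) (TW2 : TW2_stmt) (PW2 : PW2_stmt) (GEN : GEN_stmt) (FAM : FAM_stmt)
    (COR : IN1_stmt → TW2_stmt → COR_stmt) (COM : COM_stmt)
    (FDS : IN1_stmt → PW2_stmt → GEN_stmt → FAM_stmt → COR_stmt → COM_stmt → FDS_stmt)
    (ASC : ASC_stmt) (INJ : INJ_stmt) (ODD : ODD_stmt)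
    (EXP : BAS_stmt → CPR_stmt → QUK_stmt → INJ_stmt → ODD_stmt → EXP_stmt)
    (DSC : BSN_stmt → BLE_stmt → BCJ_stmt → KRO_stmt → FIX_stmt → FDS_stmt → ASC_stmt → INJ_stmt → DSC_stmt)
    (PRI : BAS_stmt → QUK_stmt → QUO_stmt → PRI_stmt) (PRC : BAS_stmt → QUK_stmt → PRC_stmt) (FCT : FCT_stmt)
    (DVN : DVN_stmt)
    (CP1 : BAS_stmt → BIN_stmt → CPR_stmt → U_stmt → PRI_stmt → EXP_stmt → DSC_stmt → CP1_stmt)
    (CP2 : BAS_stmt → CO2_stmt → CLS_stmt → EXP_stmt → DSC_stmt → CP2_stmt) (UQF : UQF_stmt)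
    (TF1 : BAS_stmt → QUK_stmt → IRR_stmt → PRI_stmt → FCT_stmt → UQF_stmt → TF1_stmt)
    (TF2 : PRC_stmt → FCT_stmt → CP1_stmt → TF2_stmt)
    (RE3 : BAS_stmt → BIN_stmt → CPR_stmt → CMP_stmt → ANI_stmt → RL2_stmt → RAR_stmt → CP2_stmt → RE3_stmt) :
    FP1_stmt ∧ (∀ (m : ℕ) (K : Type) [Field K] [NumberField K]
    [IsCyclotomicExtension {2 ^ (m + 1)} ℚ K] (z : 𝓞 K) (_ : IsPrimitiveRoot z (2 ^ (m + 1))),
    List.TFAE [Nat.Prime (fer m), Prime (2 - z), Uniq ((fer m : ℕ) : 𝓞 K),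
      (∃ P : Ideal (𝓞 K), P.IsPrime ∧ ((fer m : ℕ) : 𝓞 K) ∈ P ∧ P.IsPrincipal),
      (∃ P : Ideal (𝓞 K), P.IsPrime ∧ ((fer m : ℕ) : 𝓞 K) ∈ P ∧ BecomesPrincipal P)]) ∧ FP2_stmt ∧ RE3_stmt := by
  have inj := INJ
  have fds := FDS IN1 PW2 GEN FAM (COR IN1 TW2) COM
  have dsc := DSC BSN BLE (BCJ BSN) (KRO BSN) (FIX BSN) fds ASC inj
  have exp := EXP BAS CPR QUK inj ODD
  have pri := PRI BAS QUK QUO
  have cp1 := CP1 BAS BIN CPR U pri exp dsc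
  have cp2 := CP2 BAS CO2 CLS exp dsc
  refine ⟨FP1 pri DVN cp1, ?_, FP2 BSN DVN cp2, RE3 BAS BIN CPR CMP ANI RL2 RAR cp2⟩
  intro m K _ _ _ z hz
  exact FTF pri (PRC BAS QUK) DVN (TF1 BAS QUK IRR pri FCT UQF) (TF2 (PRC BAS QUK) FCT cp1) BAS QUK m K z hz

end Pool.Agent.UFG
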