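import Pool.Agent.helper76.UFG.Spec

set_option autoImplicit false

namespace Pool.Agent.UFG

open Finset NumberField nonZeroDivisors Pool.Agent.UF

lemma DSC_core (A B : Type) [CommRing A] [CommRing B] [IsDomain A] [IsDomain B] [IsDedekindDomain B] [Algebra A B]
    (n M : ℕ) (y : B) (b : A ≃+* A) (bL : B ≃+* B)
    (hinj : Function.Injective (algebraMap A B)) (hyu : IsUnit y)
    (hcj : ∀ a : A, bL (algebraMap A B a) = algebraMap A B (b a))
    (hcomm : ∀ (s : B ≃+* B) (a : B), s (bL a) = bL (s a)) (hbL : IsBar y bL)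
    (hfix : ∀ (k : ℕ) (s : B ≃+* B), s y = y ^ k → k ≡ 1 [MOD M] →
      ∀ a : A, s (algebraMap A B a) = algebraMap A B a)
    (hKRO : ∀ u : B, u * bL u = 1 → ∃ j : ℕ, u = y ^ j)
    (hASC : ∀ (I : Ideal A) (δ : B) (s : B ≃+* B), (∀ a : A, s (algebraMap A B a) = algebraMap A B a) →
      I.map (algebraMap A B) = Ideal.span {δ} → Associated (s δ) δ)
    (hFDS : ∀ ρ : B, ρ ≠ 0 → Semi n M y ρ → ∃ i : ℕ, ∀ (k : ℕ) (s : B ≃+* B), s y = y ^ k → k ≡ 1 [MOD M] →
      s (y ^ i * ρ) = y ^ i * ρ)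
    (hFIX : ∀ x : B, (∀ (k : ℕ) (s : B ≃+* B), s y = y ^ k → k ≡ 1 [MOD M] → s x = x) →
      ∃ x₀ : A, algebraMap A B x₀ = x)
    (hINJ : ∀ I J : Ideal A, I.map (algebraMap A B) = J.map (algebraMap A B) → I = J)
    (α : A) (I : Ideal A) (hα : α ≠ 0) (hI : I ∣ Ideal.span {α})
    (hP : ∀ p : ℕ, p.Prime → p ∣ n → ∃ P : Ideal B, P.IsPrime ∧ (p : B) ∈ P ∧
      algebraMap A B (α * b α) ∉ P)
    (hpr : (I.map (algebraMap A B)).IsPrincipal) :
    ∃ ρ : A, ρ * b ρ = α * b α ∧ Ideal.span {ρ} * I = I.map b * Ideal.span {α} := by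
  obtain ⟨Q, hQ⟩ := hI
  obtain ⟨⟨δ, hδ⟩⟩ := hpr
  have hδ' : I.map (algebraMap A B) = Ideal.span {δ} := hδ
  have hα' : Ideal.span {algebraMap A B α} = Ideal.span {δ} * Q.map (algebraMap A B) := by
    rw [← hδ', ← Ideal.map_mul, ← hQ, Ideal.map_span, Set.image_singleton]
  have hα0 : algebraMap A B α ≠ 0 := fun h => hα (hinj (by rw [h, map_zero]))
  have hδα : δ ∣ algebraMap A B α := by
    rw [← Ideal.mem_span_singleton]
    have h1 : algebraMap A B α ∈ Ideal.span {δ} * Q.map (algebraMap A B) := by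
      rw [← hα']; exact Ideal.mem_span_singleton_self _
    exact (Ideal.mul_le_left (I := Ideal.span {δ}) (J := Q.map (algebraMap A B))) h1
  obtain ⟨ε, hε⟩ := hδα
  have hδ0 : δ ≠ 0 := by rintro rfl; rw [zero_mul] at hε; exact hα0 hε
  have hQ' : Q.map (algebraMap A B) = Ideal.span {ε} := by
    have h1 : Ideal.span {δ} * Q.map (algebraMap A B) = Ideal.span {δ} * Ideal.span {ε} := by
      rw [← hα', Ideal.span_singleton_mul_span_singleton, hε]
    have h2 : (Ideal.span {δ} : Ideal B) ≠ 0 := by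
      rw [Ne, Ideal.zero_eq_bot, Ideal.span_singleton_eq_bot]; exact hδ0
    exact mul_left_cancel₀ h2 h1
  obtain ⟨ρ, hρ⟩ : ∃ ρ : B, ρ = bL δ * ε := ⟨_, rfl⟩
  have hρρ : ρ * bL ρ = algebraMap A B (α * b α) := by
    rw [map_mul (algebraMap A B), ← hcj α, hε, hρ, map_mul bL, map_mul bL, hbL.2 δ]
    ring
  have hbα0 : b α ≠ 0 := fun h => hα (b.injective (by rw [h, map_zero]))
  have hA0 : algebraMap A B (α * b α) ≠ 0 := fun h =>
    (mul_ne_zero hα hbα0) (hinj (by rw [h, map_zero]))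
  have hρ0 : ρ ≠ 0 := by
    intro h; rw [h, zero_mul] at hρρ; exact hA0 hρρ.symm
  have hsemi : Semi n M y ρ := by
    refine ⟨fun k s hs hk => ?_, fun p hp hpn => ?_⟩
    · have hf := hfix k s hs hk
      have a1 : Associated (s δ) δ := hASC I δ s hf hδ'
      have a2 : Associated (s ε) ε := hASC Q ε s hf hQ'
      have a3 : Associated (s (bL δ)) (bL δ) := by
        rw [hcomm s δ]
        exact a1.map bL
      have a4 : Associated ρ (s ρ) := by
        rw [hρ, map_mul]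
        exact (a3.mul_mul a2).symm
      obtain ⟨u, hu⟩ := a4
      have h1 : (u : B) * bL (u : B) = 1 := by
        have h2 : s (ρ * bL ρ) = ρ * bL ρ := by rw [hρρ]; exact hf _
        rw [map_mul, hcomm s ρ, ← hu, map_mul] at h2
        have h3 : (ρ * bL ρ) * ((u : B) * bL (u : B)) = (ρ * bL ρ) * 1 := by
          rw [mul_one]
          calc (ρ * bL ρ) * ((u : B) * bL (u : B)) = ρ * ↑u * (bL ρ * bL ↑u) := by ring
            _ = _ := h2
        exact mul_left_cancel₀ (by rw [hρρ]; exact hA0) h3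
      obtain ⟨j, hj⟩ := hKRO u h1
      exact ⟨j, by rw [← hu, hj]; ring⟩
    · obtain ⟨P, hP1, hP2, hP3⟩ := hP p hp hpn
      refine ⟨P, hP1, hP2, fun h => hP3 ?_⟩
      rw [← hρρ]
      exact P.mul_mem_right _ h
  obtain ⟨i, hi⟩ := hFDS ρ hρ0 hsemi
  obtain ⟨x₀, hx₀⟩ := hFIX (y ^ i * ρ) (fun k s hs hk => hi k s hs hk)
  refine ⟨x₀, ?_, ?_⟩
  · apply hinj
    rw [map_mul (algebraMap A B), ← hcj x₀, hx₀, map_mul bL, ← hρρ, map_pow]
    have h1 : y ^ i * bL y ^ i = 1 := by rw [← mul_pow, mul_comm, hbL.1, one_pow]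
    calc y ^ i * ρ * (bL y ^ i * bL ρ) = (y ^ i * bL y ^ i) * (ρ * bL ρ) := by ring
      _ = _ := by rw [h1, one_mul]
  · apply hINJ
    rw [Ideal.map_mul, Ideal.map_mul, hδ', Ideal.map_span, Ideal.map_span, Set.image_singleton,
      Set.image_singleton, hx₀]
    have h1 : (I.map b).map (algebraMap A B) = Ideal.span {bL δ} := by
      have h2 : (I.map b).map (algebraMap A B) =
          I.map ((algebraMap A B).comp (b : A →+* A)) := by
        rw [← Ideal.map_map]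
        rfl
      have h3 : (algebraMap A B).comp (b : A →+* A) =
          (bL : B →+* B).comp (algebraMap A B) := by
        ext1 a
        exact (hcj a).symm
      rw [h2, h3, ← Ideal.map_map, hδ', Ideal.map_span, Set.image_singleton]
      rfl
    rw [h1, Ideal.span_singleton_mul_span_singleton, Ideal.span_singleton_mul_span_singleton,
      Ideal.span_singleton_eq_span_singleton, hε]
    have h5 : IsUnit (y ^ i) := hyu.pow i
    have h6 : y ^ i * ρ * δ = y ^ i * (bL δ * (δ * ε)) := by rw [hρ]; ring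
    rw [h6]
    exact (associated_unit_mul_left _ _ h5)

lemma DSC_fix (A B : Type) [CommRing A] [CommRing B] [IsDomain B] [Algebra A B] (n M N : ℕ) (z : A) (y : B)
    (hn : n ≠ 0) (hz : z ^ M = 1) (cz : CycN N z) (hy : IsPrimitiveRoot y n) (hd : M ∣ n) (k : ℕ) (s : B ≃+* B)
    (hs : s y = y ^ k) (hk : k ≡ 1 [MOD M]) (a : A) : s (algebraMap A B a) = algebraMap A B a := by
  have hne : NeZero n := ⟨hn⟩
  have h1 : (algebraMap A B z) ^ M = 1 := by rw [← map_pow, hz, map_one]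
  have h2 : (algebraMap A B z) ^ n = 1 := by
    obtain ⟨q, hq⟩ := hd
    rw [hq, pow_mul, h1, one_pow]
  obtain ⟨i, _, hi⟩ := hy.eq_pow_of_pow_eq_one h2
  have h3 : s (algebraMap A B z) = algebraMap A B z := by
    have h4 : s (algebraMap A B z) = (algebraMap A B z) ^ k := by
      rw [← hi, map_pow, hs, ← pow_mul, ← pow_mul, mul_comm]
    rw [h4]
    conv_rhs => rw [← pow_one (algebraMap A B z)]
    exact pow_eq_pow_of_modEq hk h1
  exact cz.ext ((s : B →+* B).comp (algebraMap A B)) (algebraMap A B) h3 a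

theorem DSC (hBSN : BSN_stmt) (hBLE : BLE_stmt) (hBCJ : BCJ_stmt) (hKRO : KRO_stmt) (hFIX : FIX_stmt)
    (hFDS : FDS_stmt) (hASC : ASC_stmt) (hINJ : INJ_stmt) : DSC_stmt := by
  intro m n K L _ _ _ _ _ _ _ z b hm hz hb hn hdvd α I hα hI hP hpr
  have hne : NeZero n := ⟨hn⟩
  obtain ⟨y, hy⟩ : ∃ y : 𝓞 L, IsPrimitiveRoot y n :=
    ⟨(IsCyclotomicExtension.zeta_spec n ℚ L).toInteger,
      (IsCyclotomicExtension.zeta_spec n ℚ L).toInteger_isPrimitiveRoot⟩
  have cy := hBSN n L y hn hy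
  have cz := hBSN _ K z (by positivity) hz
  obtain ⟨bL, hbL⟩ := hBLE n (𝓞 L) y hn cy
  obtain ⟨hcj, hcomm⟩ := hBCJ m n K L z b y bL hz hb hn hdvd hy hbL
  have hinj : Function.Injective (algebraMap (𝓞 K) (𝓞 L)) := FaithfulSMul.algebraMap_injective _ _
  have heven : Even n := by
    obtain ⟨q, hq⟩ := hdvd
    rw [hq, pow_succ]
    exact ⟨2 ^ m * q, by ring⟩
  exact DSC_core (𝓞 K) (𝓞 L) n (2 ^ (m + 1)) y b bL hinj (hy.isUnit hn) hcj hcomm hbL
    (fun k s hs hk a => DSC_fix (𝓞 K) (𝓞 L) n (2 ^ (m + 1)) _ z y hn hz.pow_eq_one cz hy hdvd k s hs hk a)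
    (fun u hu => hKRO n L y bL hn heven hy hbL u hu)
    (fun I δ s h1 h2 => hASC (𝓞 K) (𝓞 L) I δ s h1 h2)
    (fun ρ h1 h2 => hFDS m n (𝓞 L) y ρ hm hn hdvd cy h1 h2)
    (fun x hx => hFIX m n K L y hn hdvd hy x hx)
    (fun I J h => hINJ K L I J h) α I hα hI hP hpr

end Pool.Agent.UFG
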