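import Pool.Agent.helper76.UF.Main
import Pool.Agent.helper76.UFG.Asm
import Pool.Agent.helper48.UFG.BSN
import Pool.Agent.helper48.UFG.BLE
import Pool.Agent.helper48.UFG.BCJ
import Pool.Agent.helper50.UFG.KRO
import Pool.Agent.helper78.UFG.FIX
import Pool.Agent.helper24.UFG.IN1
import Pool.Agent.helper24.UFG.TW2
import Pool.Agent.helper24.UFG.PW2
import Pool.Agent.helper73.UFG.GEN
import Pool.Agent.helper73.UFG.FAM
import Pool.Agent.helper45.UFG.COR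
import Pool.Agent.helper73.UFG.COM
import Pool.Agent.helper24.UFG.FDS
import Pool.Agent.helper27.UFG.ASC
import Pool.Agent.helper27.UFG.INJ
import Pool.Agent.helper73.UFG.ODD
import Pool.Agent.helper73.UFG.EXP
import Pool.Agent.helper76.UFG.DSC
import Pool.Agent.helper19.UFG.PRI
import Pool.Agent.helper19.UFG.PRC
import Pool.Agent.helper19.UFG.FCT
import Pool.Agent.helper92.UFG.DVN
import Pool.Agent.helper27.UFG.CP1
import Pool.Agent.helper27.UFG.CP2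
import Pool.Agent.helper19.UFG.UQF
import Pool.Agent.helper32.UFG.TF1
import Pool.Agent.helper19.UFG.TF2
import Pool.Agent.helper8.UFG.RE3

set_option autoImplicit false

namespace Pool.Agent.UFG

open Finset NumberField nonZeroDivisors Pool.Agent.UF

theorem main : FP1_stmt ∧ (∀ (m : ℕ) (K : Type) [Field K] [NumberField K]
    [IsCyclotomicExtension {2 ^ (m + 1)} ℚ K] (z : 𝓞 K) (_ : IsPrimitiveRoot z (2 ^ (m + 1))),
    List.TFAE [Nat.Prime (fer m), Prime (2 - z), Uniq ((fer m : ℕ) : 𝓞 K),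
      (∃ P : Ideal (𝓞 K), P.IsPrime ∧ ((fer m : ℕ) : 𝓞 K) ∈ P ∧ P.IsPrincipal),
      (∃ P : Ideal (𝓞 K), P.IsPrime ∧ ((fer m : ℕ) : 𝓞 K) ∈ P ∧ BecomesPrincipal P)]) ∧ FP2_stmt ∧ RE3_stmt := by
  have sup := UF.SUP UF.CST UF.TBD
  have pol := UF.POL UF.LIN
  have co1 := UF.CO1 sup UF.PIG UF.SPL pol
  have co2 := UF.CO2 UF.BAS UF.PRM co1
  have uf2 := UF.UF2 UF.CST UF.UNU UF.UC1 UF.UC2
  have u := UF.UFI (UF.UEO UF.CST) UF.UT1 uf2
  have irr := UF.IRR UF.BAS UF.BIN UF.CPR UF.QUK UF.QUO u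
  exact asm UF.BAS UF.BIN UF.CPR UF.QUK UF.QUO u co2 UF.CLS irr UF.CMP (UF.ANI UF.QUK UF.QUO) UF.RL2 (UF.RAR UF.NPP)
    BSN BLE BCJ KRO FIX IN1 TW2 PW2 GEN FAM COR COM FDS ASC INJ ODD EXP DSC PRI PRC FCT DVN CP1 CP2 UQF TF1 TF2 RE3

end Pool.Agent.UFG
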