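import Mathlib

set_option autoImplicit false

namespace Pool.Agent.UFG

theorem SQN_map {R : Type} [CommRing R] [IsDedekindDomain R] [Module.Free ℤ R] (b : R ≃+* R) (J : Ideal R) :
    Ideal.absNorm (J.map b) = Ideal.absNorm J := by
  rw [Ideal.absNorm_apply, Ideal.absNorm_apply, Submodule.cardQuot_apply, Submodule.cardQuot_apply]
  exact (Nat.card_congr (Ideal.quotientEquiv J (J.map b) b rfl).toEquiv).symm

theorem SQN_inv {R : Type} [CommRing R] (b : R ≃+* R) (hb : ∀ a, b (b a) = a) (J : Ideal R) :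
    (J.map b).map b = J := by
  have h1 : (J.map (b : R →+* R)).map (b : R →+* R) = J := by
    rw [Ideal.map_map]
    have h2 : (b : R →+* R).comp (b : R →+* R) = RingHom.id R := by
      ext a; exact hb a
    rw [h2, Ideal.map_id]
  exact h1

/-- A nonzero ideal which is its own conjugate and all whose prime divisors differ from their conjugates has a square norm. -/
theorem SQN {R : Type} [CommRing R] [IsDedekindDomain R] [Module.Free ℤ R] [Module.Finite ℤ R] (b : R ≃+* R)
    (hb : ∀ a, b (b a) = a) : ∀ (n : ℕ) (J : Ideal R), J ≠ ⊥ → Ideal.absNorm J = n → J.map b = J →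
    (∀ P : Ideal R, P.IsPrime → P ∣ J → P.map b ≠ P) → IsSquare (Ideal.absNorm J) := by
  intro n
  induction n using Nat.strong_induction_on with
  | _ n ih =>
    intro J hJ hn hbJ hP
    by_cases hT : J = ⊤
    · rw [hT, Ideal.absNorm_top]; exact ⟨1, rfl⟩
    · obtain ⟨P, hPm, hJP⟩ := Ideal.exists_le_maximal J hT
      have hPd : P ∣ J := Ideal.dvd_iff_le.2 hJP
      have hP0 : P ≠ ⊥ := fun h => hJ (le_bot_iff.1 (h ▸ hJP))
      have hne := hP P hPm.isPrime hPd
      have hPb : P.map b ∣ J := by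
        rw [← hbJ]
        obtain ⟨L, hL⟩ := hPd
        rw [hL, Ideal.map_mul]
        exact Dvd.intro _ rfl
      have hPbp : (P.map b).IsPrime := by
        have := hPm.isPrime
        exact Ideal.map_isPrime_of_equiv b
      have hPb0 : P.map b ≠ ⊥ := fun h => hJ (le_bot_iff.1 (h ▸ Ideal.dvd_iff_le.1 hPb))
      have hPbm : (P.map b).IsMaximal := hPbp.isMaximal hPb0
      have hco : IsCoprime P (P.map b) := Ideal.isCoprime_iff_sup_eq.2 (hPm.coprime_of_ne hPbm (Ne.symm hne))
      obtain ⟨L, hL⟩ := hco.mul_dvd hPd hPb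
      have hL0 : L ≠ ⊥ := by
        intro h
        rw [h, Ideal.mul_bot] at hL
        exact hJ hL
      have hLb : L.map b = L := by
        have h1 : (P * P.map b * L).map b = P * P.map b * L := by rw [← hL]; exact hbJ
        rw [Ideal.map_mul, Ideal.map_mul, SQN_inv b hb P, mul_comm (P.map b) P] at h1
        exact mul_left_cancel₀ (mul_ne_zero hP0 hPb0) h1
      have hN : Ideal.absNorm J = Ideal.absNorm P * Ideal.absNorm P * Ideal.absNorm L := by
        rw [hL, map_mul, map_mul, SQN_map b P]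
      have hP1 : Ideal.absNorm P ≠ 1 := fun h => hPm.ne_top (Ideal.absNorm_eq_one_iff.1 h)
      have hPp : Ideal.absNorm P ≠ 0 := fun h => hP0 (Ideal.absNorm_eq_zero_iff.1 h)
      have hLp : Ideal.absNorm L ≠ 0 := fun h => hL0 (Ideal.absNorm_eq_zero_iff.1 h)
      have hlt : Ideal.absNorm L < n := by
        rw [← hn, hN]
        have h2 : 2 ≤ Ideal.absNorm P := by omega
        have h3 : 1 ≤ Ideal.absNorm L := by omega
        nlinarith [Nat.mul_le_mul h2 h2, Nat.mul_le_mul_right (Ideal.absNorm L) (Nat.mul_le_mul h2 h2)]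
      obtain ⟨y, hy⟩ := ih _ hlt L hL0 rfl hLb (fun Q hQ hQL => hP Q hQ (hQL.trans (hL ▸ Dvd.intro_left _ rfl)))
      exact ⟨Ideal.absNorm P * y, by rw [hN, hy]; ring⟩

end Pool.Agent.UFG
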