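import Pool.Agent.helper76.UF.SpecB

/-!
# Fermat numbers and unique factorisation, second part (MP_37e5fa_nt), rows ufg:*

`K = Q(zeta_(2^(m+1)))`, `z` a primitive `2^(m+1)`-th root of unity in `𝓞 K`, `L = Q(zeta_n)` any cyclotomic field
containing `K`, `y` a primitive `n`-th root of unity in `𝓞 L`.  The new theorem: an ideal of `𝓞 K` dividing `2 - z` that becomes
principal in `L` is `(1)` or `(2 - z)` (all `m`); and the analogue for ideals dividing products of few numbers `a - z^t`.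

The new point (field descent).  Let `I Q = (α)` in `𝓞 K`, `I 𝓞 L = (δ)`, `α = δ ε`, `ρ = b(δ) ε`, so `ρ b(ρ) = α b(α)`.  For every
automorphism `s` of `L` over `K` we get `s ρ = ω ρ` with a root of unity `ω` (the ideals of `δ`, `ε` come from `K`, and all
absolute values of `s ρ / ρ` are `1`).  If `s` is in the inertia group at `p` then `ω` is congruent to `1` modulo a prime above `p`, so it
has `p`-power order; as `H^1` with values in the roots of unity vanishes, `ρ` is a root of unity times an element of `K`.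

Rows only use other rows as hypotheses.  Row `XX` = theorem `XX : XX_stmt` in the file `Pool/Agent/<seat>/UFG/XX.lean`,
`import Pool.Agent.helper76.UFG.Spec`, namespace `Pool.Agent.UFG`, `open Finset NumberField nonZeroDivisors Pool.Agent.UF`; auxiliary lemmas are prefixed
`XX_`.  The rows `BAS BIN CPR QUK QUO PDI U CO2 CLS IRR UFD CMP ANI RL2 RAR` are rows of the first part (`Pool.Agent.UF.BAS_stmt`
etc.), already proved; where they are named they enter as hypotheses.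
-/

set_option autoImplicit false

namespace Pool.Agent.UFG

open Finset NumberField nonZeroDivisors Pool.Agent.UF

/-- `y` is a primitive `n`-th root of unity which generates the ring, and all maps `y -> y^k`, `k` prime to `n`, extend
to automorphisms. -/
def CycN (n : ℕ) {R : Type} [CommRing R] (y : R) : Prop :=
  IsPrimitiveRoot y n ∧ (∀ a : R, ∃ (d : ℕ) (c : ℕ → ℤ), a = ∑ i ∈ range d, (c i : R) * y ^ i) ∧
    ∀ k : ℕ, Nat.Coprime k n → ∃ s : R ≃+* R, s y = y ^ k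

/-- two homomorphisms which agree at `y` are equal -/
theorem CycN.ext {n : ℕ} {R S : Type} [CommRing R] [CommRing S] {y : R} (h : CycN n y) (f g : R →+* S)
    (hfg : f y = g y) (a : R) : f a = g a := by
  obtain ⟨d, c, rfl⟩ := h.2.1 a
  simp only [map_sum, map_mul, map_pow, map_intCast, hfg]

/-- every automorphism maps `y` to a power of `y` -/
theorem CycN.pow {n : ℕ} {R : Type} [CommRing R] [IsDomain R] {y : R} (hn : n ≠ 0) (h : CycN n y) (s : R ≃+* R) :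
    ∃ k : ℕ, Nat.Coprime k n ∧ s y = y ^ k := by
  have h1 : IsPrimitiveRoot (s y) n := h.1.map_of_injective s.injective
  have : NeZero n := ⟨hn⟩
  obtain ⟨k, _, hk, e⟩ := (h.1.isPrimitiveRoot_iff).mp h1
  exact ⟨k, hk, e.symm⟩

/-- A choice of automorphisms `σ p`, `p | n` prime: `y -> y^(k p)`, `k p = 1` modulo the part of `n` prime to `p`, `k p = 2` modulo the
`p`-part for odd `p`, and `k 2 = 1 + M` modulo the 2-part. -/
def Fam (n M : ℕ) {R : Type} [CommRing R] (y : R) (k : ℕ → ℕ) (σ : ℕ → R ≃+* R) : Prop :=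
  ∀ p ∈ n.primeFactors, σ p y = y ^ k p ∧ k p ≡ 1 [MOD n / p ^ n.factorization p] ∧
    (p ≠ 2 → k p ≡ 2 [MOD p ^ n.factorization p]) ∧ (p = 2 → k p ≡ 1 + M [MOD p ^ n.factorization p])

/-- `s ρ = root of unity * ρ` for the automorphisms `s` with `s y = y^k`, `k = 1` modulo `M`, and for every prime `p | n` there is a prime
ideal above `p` not containing `ρ`. -/
def Semi (n M : ℕ) {R : Type} [CommRing R] (y ρ : R) : Prop :=
  (∀ (k : ℕ) (s : R ≃+* R), s y = y ^ k → k ≡ 1 [MOD M] → ∃ j : ℕ, s ρ = y ^ j * ρ) ∧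
    ∀ p : ℕ, p.Prime → p ∣ n → ∃ P : Ideal R, P.IsPrime ∧ (p : R) ∈ P ∧ ρ ∉ P

/-! ## Block A: cyclotomic rings -/

/-- Row BSN (short-medium).  PROOF.  `𝓞 L = Z[y]`: `IsPrimitiveRoot.integralPowerBasis` (Mathlib, all `n`) for the primitive root `(y : L)`, or the instance
`IsCyclotomicExtension.ringOfIntegers : IsCyclotomicExtension {n} ℤ (𝓞 L)`; elements of `Algebra.adjoin ℤ {y}` are values of integer polynomials
(`Algebra.adjoin_singleton_eq_range_aeval`, `Polynomial.aeval_eq_sum_range`).  Automorphisms: `IsCyclotomicExtension.autEquivPow` with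
`cyclotomic.irreducible_rat`, or `fromZetaAut`, restricted to the integers, as in row BAS (`Pool/Agent/helper90/UF/BAS.lean`, the same for `n = 2^(m+1)`). -/
def BSN_stmt : Prop :=
  ∀ (n : ℕ) (L : Type) [Field L] [NumberField L] [IsCyclotomicExtension {n} ℚ L] (y : 𝓞 L), n ≠ 0 →
    IsPrimitiveRoot y n → CycN n y

/-- Row BLE (short; hypothesis none).  PROOF.  `b` := the automorphism with `b y = y^(n-1)` (`n - 1` is prime to `n`; if `n = 1`: `y = 1`, `k = 0` is prime to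
`1`).  `b y * y = y^n = 1`; `b (b y) = y` (multiply `b y * y = 1` by itself: `b (b y) * b y = 1`), so `b b = id` by `CycN.ext`. -/
def BLE_stmt : Prop :=
  ∀ (n : ℕ) (R : Type) [CommRing R] [IsDomain R] (y : R), n ≠ 0 → CycN n y → ∃ b : R ≃+* R, IsBar y b

/-- Row BCJ (short-medium; hypothesis BSN).  PROOF.  `Z := algebraMap z` is a root of unity, `Z^(2^(m+1)) = 1`, so `Z^n = 1` and `Z = y^i`
(`IsPrimitiveRoot.eq_pow_of_pow_eq_one`); `bL Z * Z = (bL y * y)^i = 1`, and `algebraMap (bK z) * Z = 1`, so `bL Z = algebraMap (bK z)`.  The two homomorphisms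
`bL ∘ algebraMap` and `algebraMap ∘ bK` agree at `z` and `𝓞 K = Z[z]` (BSN for `K` and `CycN.ext`).  Commutation: `s y = y^k` (`CycN.pow`), both `s (bL y)` and
`bL (s y)` are the inverse of `y^k`; `CycN.ext`. -/
def BCJ_stmt : Prop :=
  ∀ (m n : ℕ) (K L : Type) [Field K] [NumberField K] [IsCyclotomicExtension {2 ^ (m + 1)} ℚ K] [Field L] [NumberField L]
    [IsCyclotomicExtension {n} ℚ L] [Algebra K L] (z : 𝓞 K) (bK : 𝓞 K ≃+* 𝓞 K) (y : 𝓞 L) (bL : 𝓞 L ≃+* 𝓞 L),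
    IsPrimitiveRoot z (2 ^ (m + 1)) → IsBar z bK → n ≠ 0 → 2 ^ (m + 1) ∣ n → IsPrimitiveRoot y n → IsBar y bL →
    (∀ a : 𝓞 K, bL (algebraMap (𝓞 K) (𝓞 L) a) = algebraMap (𝓞 K) (𝓞 L) (bK a)) ∧
      ∀ (s : 𝓞 L ≃+* 𝓞 L) (a : 𝓞 L), s (bL a) = bL (s a)

/-- Row KRO (short-medium; Kronecker).  PROOF.  For every embedding `φ : L →+* ℂ`: the homomorphisms `a ↦ φ (b a)` and `a ↦ conj (φ a)` on `𝓞 L` agree at
`y` (both are the inverse of `φ y`, `|φ y| = 1`), and `𝓞 L = Z[y]` (hypothesis BSN, `CycN.ext`); so `|φ u|^2 = φ (u b u) = 1`.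
`NumberField.Embeddings.pow_eq_one_of_norm_eq_one`: `u` is a root of unity.  Its order divides `torsionOrder L = n`
(`IsCyclotomicExtension.Rat.torsionOrder_eq`, `n` even; `u` as an element of `NumberField.Units.torsion L`), so `u^n = 1`, `u = y^j`
(`IsPrimitiveRoot.eq_pow_of_pow_eq_one`). -/
def KRO_stmt : Prop :=
  ∀ (n : ℕ) (L : Type) [Field L] [NumberField L] [IsCyclotomicExtension {n} ℚ L] (y : 𝓞 L) (b : 𝓞 L ≃+* 𝓞 L),
    n ≠ 0 → Even n → IsPrimitiveRoot y n → IsBar y b → ∀ u : 𝓞 L, u * b u = 1 → ∃ j : ℕ, u = y ^ j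

/-- Row FIX (medium; hypothesis BSN).  PROOF.  `L` is Galois over `K` (`IsCyclotomicExtension.isGalois` over `ℚ`, `IsGalois.tower_top_of_isGalois`).  Every
`g : L ≃ₐ[K] L` restricts to a ring automorphism `s` of `𝓞 L` (`NumberField.RingOfIntegers.mapRingEquiv`), `s y = y^k` with `k` prime to `n` (`CycN.pow`).  The element
`Z`, image in `𝓞 L` of a primitive `2^(m+1)`-th root `z` of `𝓞 K`, is fixed by `s`; `Z = y^i`, so `s Z = Z^k`, and `Z` is primitive of order `2^(m+1)`: `Z^k = Z` gives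
`k = 1` modulo `2^(m+1)`.  So `g x = x` for all `g`: `(x : L)` is in the image of `K` (`IsGalois.mem_bot_iff_fixed` or
`IsGalois.mem_range_algebraMap_iff_fixed`), say of `x0 : K`, which is integral over `ℤ` because its image is (`isIntegral_algebraMap_iff`, injective). -/
def FIX_stmt : Prop :=
  ∀ (m n : ℕ) (K L : Type) [Field K] [NumberField K] [IsCyclotomicExtension {2 ^ (m + 1)} ℚ K] [Field L] [NumberField L]
    [IsCyclotomicExtension {n} ℚ L] [Algebra K L] (y : 𝓞 L), n ≠ 0 → 2 ^ (m + 1) ∣ n → IsPrimitiveRoot y n →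
    ∀ x : 𝓞 L, (∀ (k : ℕ) (s : 𝓞 L ≃+* 𝓞 L), s y = y ^ k → k ≡ 1 [MOD 2 ^ (m + 1)] → s x = x) →
      ∃ x₀ : 𝓞 K, algebraMap (𝓞 K) (𝓞 L) x₀ = x

/-! ## Block D: the descent -/

/-- Row IN1 (medium): inertia.  PROOF.  Put `w = y^k * y^(n-1)`, so `s y = w * y` (`y^n = 1`) and `w^(p^e) = 1` (`n₁ | k - 1 + n`).  In the domain `R ⧸ P` of characteristic
`p`: `(w - 1)^(p^e) = w^(p^e) - 1 = 0` (`sub_pow_char_pow`), so `w = 1` there: `s y - y ∈ P`, and as the ring is generated by `y` (`CycN.ext` for the two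
homomorphisms `R → R ⧸ P`): `s a - a ∈ P` for all `a`.  So `(y^j - 1) ρ = s ρ - ρ ∈ P`, `y^j - 1 ∈ P`.  Let `ω = (y^j)^(p^e)`; `ω - 1 ∈ P` and `ω^(n₁) = 1`.  If `ω ≠ 1`, let
`d > 1` be its order, `d | n₁`, so `p` does not divide `d`; `IsPrimitiveRoot.prod_one_sub_pow_eq_order` (`d` is the product of the `1 - ω^i`, `0 < i < d`): `1 - ω` divides
`d`, `(d : R) ∈ P`, with `(p : R) ∈ P` and `d, p` coprime `1 ∈ P`, contradiction. -/
def IN1_stmt : Prop :=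
  ∀ (n p e n₁ : ℕ) (R : Type) [CommRing R] [IsDomain R] (y : R), n ≠ 0 → CycN n y → p.Prime → n = p ^ e * n₁ →
    ¬ p ∣ n₁ → ∀ P : Ideal R, P.IsPrime → (p : R) ∈ P → ∀ ρ : R, ρ ∉ P → ∀ (k : ℕ) (s : R ≃+* R), s y = y ^ k →
    k ≡ 1 [MOD n₁] → ∀ j : ℕ, s ρ = y ^ j * ρ → (y ^ j) ^ p ^ e = 1

/-- Row TW2 (medium): the correction at `2`.  PROOF.  `n = 2^e n₁`, `ω = y^j`, `s ω = ω^k`, so `s^q ρ = ω^(S q) ρ` with `S q = 1 + k + ... + k^(q-1)` (induction on `q`).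
For `q = 2^(e-m-1)`: `k^q = 1` modulo `2^e` (`(1 + 2^(m+1))^(2^t) = 1` modulo `2^(m+1+t)`, induction on `t`) and modulo `n₁`, so `s^q y = y`, `s^q = id` (`CycN.ext`),
`ω^(S q) = 1` (`ρ ≠ 0`).  `S (2^(t+1)) = S (2^t) (1 + k^(2^t))` and `1 + k^(2^t) = 2` modulo `4` (`k = 1` modulo `4` as `m ≥ 1`; if `e = m + 1` then `q = 1`, `S = 1`): so `S (2^t) = 2^t * odd`.
With `ω^(2^e) = 1` this gives `ω^(2^(e-m-1)) = 1`.  `η := y^(n₁)` is a primitive `2^e`-th root of unity, so `ω = η^l` (`IsPrimitiveRoot.eq_pow_of_pow_eq_one`), and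
`2^e | l 2^(e-m-1)` gives `l = 2^(m+1) l'`.  Take `y^i` the inverse of `η^(l')` (`i = (n - 1) n₁ l'`): `s (y^i ρ) = (y^i)^k ω ρ = y^i (y^i)^(2^(m+1)) ω ρ = y^i ρ`. -/
def TW2_stmt : Prop :=
  ∀ (m e n₁ k j : ℕ) (R : Type) [CommRing R] [IsDomain R] (y ρ : R) (s : R ≃+* R), 1 ≤ m → m + 1 ≤ e → Odd n₁ →
    CycN (2 ^ e * n₁) y → ρ ≠ 0 → s y = y ^ k → k ≡ 1 + 2 ^ (m + 1) [MOD 2 ^ e] → k ≡ 1 [MOD n₁] →
    s ρ = y ^ j * ρ → (y ^ j) ^ 2 ^ e = 1 → ∃ i : ℕ, (y ^ i) ^ 2 ^ e = 1 ∧ s (y ^ i * ρ) = y ^ i * ρ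

/-- Row PW2 (short-medium).  PROOF.  Induction on `e`, starting at `e = m + 1` (`j = 0`).  Let `k = (1 + 2^(m+1))^j` modulo `2^e`.  Either the same holds modulo `2^(e+1)`, or
`k = (1 + 2^(m+1))^j + 2^e` modulo `2^(e+1)`; then take `j + 2^(e-m-1)`: `(1 + 2^(m+1))^(2^t) = 1 + 2^(m+1+t)` modulo `2^(m+2+t)` (induction on `t`, `m + 1 ≥ 2`), and
`(1 + 2^(m+1))^j` is odd. -/
def PW2_stmt : Prop :=
  ∀ m e k : ℕ, 1 ≤ m → m + 1 ≤ e → k ≡ 1 [MOD 2 ^ (m + 1)] → ∃ j : ℕ, k ≡ (1 + 2 ^ (m + 1)) ^ j [MOD 2 ^ e]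

/-- Row GEN (short-medium): a number is modulo `n` the product of its local components.  PROOF.  For `S ⊆ n.primeFactors`, by induction (`Finset.induction_on`): there is `a` with `Q a`,
`a = k` modulo `p^(v_p n)` for `p ∈ S` and `a = 1` modulo `p^(v_p n)` for the other `p`.  Step: multiply by `a'` with `a' = k` modulo the `p`-part and `a' = 1` modulo the rest
(`Nat.chineseRemainder`; `Q a'` is the hypothesis; the `q`-part of `n` divides `n / p^(v_p n)` for `q ≠ p`).  For `S = n.primeFactors`: `a = k` modulo `n`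
(`Nat.modEq_iff_dvd`, all prime power parts divide the difference: `Nat.factorization_prod_pow_eq_self`, `Finset.prod_dvd_of_coprime`). -/
def GEN_stmt : Prop :=
  ∀ n : ℕ, n ≠ 0 → ∀ Q : ℕ → Prop, Q 1 → (∀ a b, Q a → Q b → Q (a * b)) → (∀ a b, a ≡ b [MOD n] → Q a → Q b) →
    ∀ k : ℕ, (∀ p ∈ n.primeFactors, ∀ a : ℕ, a ≡ k [MOD p ^ n.factorization p] →
      a ≡ 1 [MOD n / p ^ n.factorization p] → Q a) → Q k

/-- Row FAM (short-medium).  PROOF.  `Nat.chineseRemainder` for the coprime moduli `p^(v_p n)` and `n / p^(v_p n)` gives `k p`.  It is prime to `n`: a prime `q | n`, `q ≠ p` divides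
`n / p^(v_p n)` and `k p = 1` modulo `q`; modulo `p`: `k p = 2`, `p` odd, or (`p = 2`, `M` even) `k p = 1 + M` is odd.  Automorphism: `CycN`.  (Choose with `choose` /
`Classical.choice`; outside `n.primeFactors` anything, e.g. `k p = 1`, the identity.) -/
def FAM_stmt : Prop :=
  ∀ (n M : ℕ) (R : Type) [CommRing R] (y : R), n ≠ 0 → Even M → CycN n y → ∃ (k : ℕ → ℕ) (σ : ℕ → R ≃+* R), Fam n M y k σ

/-- Row COR (medium; hypotheses IN1, TW2): a power of `y` times `ρ` is fixed by all `σ p`.  PROOF.  `M = 2^(m+1)`.  By induction on `S ⊆ n.primeFactors`: there is `i` with `σ p (y^i ρ) = y^i ρ` for `p ∈ S`.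
Step `q`: put `ρ' = y^i ρ`; it satisfies `Semi` too (`s ρ' = y^(i k) y^j ρ = y^(j') ρ'`, `j' = i k + j + (n-1) i`; `y` is a unit).  `k q = 1` modulo `M`: for odd `q` since `M | n / q^(v_q n)`; for `q = 2` since
`M | 2^(v_2 n)`.  So `σ q ρ' = y^j ρ'` and by IN1 (`e = v_q n`, `n₁ = n / q^e`) `(y^j)^(q^e) = 1`.  `q` odd: `i' = (n-1) j`, `y^(i')` is the inverse of `y^j` and `(y^(i'))^(k q) = (y^(i'))^2` (its
`q^e`-th power is `1`), so `σ q (y^(i') ρ') = y^(2 i') y^j ρ' = y^(i') ρ'`.  `q = 2`: TW2 (`n = 2^e n₁`, `m + 1 ≤ e`).  In both cases `(y^(i'))^(q^e) = 1`, so `σ p`, `p ≠ q`, fixes `y^(i')`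
(`k p = 1` modulo `n / p^(v_p n)`, a multiple of `q^e`), and `y^(i + i') ρ` is fixed by `σ p` for `p ∈ S ∪ {q}`. -/
def COR_stmt : Prop :=
  ∀ (m n : ℕ) (R : Type) [CommRing R] [IsDomain R] (y ρ : R), 1 ≤ m → n ≠ 0 → 2 ^ (m + 1) ∣ n → CycN n y → ρ ≠ 0 →
    Semi n (2 ^ (m + 1)) y ρ → ∀ (k : ℕ → ℕ) (σ : ℕ → R ≃+* R), Fam n (2 ^ (m + 1)) y k σ →
    ∃ i : ℕ, ∀ p ∈ n.primeFactors, σ p (y ^ i * ρ) = y ^ i * ρ

/-- Row COM (short-medium): PROOF.  `s y = y^k'` with `k' = 1` modulo `M`; `s ρ = ω ρ`, `ω = y^j`.  For `p | n` the automorphisms `s` and `σ p` commute (`CycN.ext`): `ω^(k p) ρ = σ p (ω ρ) = σ p (s ρ) =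
s (σ p ρ) = s ρ = ω ρ`, so `ω^(k p) = ω` (`ρ ≠ 0`), and `ω^n = 1`.  Let `d` be the order of `ω`: `d | n`, and `k p = 1` modulo `d` for all `p | n`.  An odd prime `p` does not divide `d`: otherwise
`k p = 1` and `k p = 2` modulo `p`.  So `d` is a power of `2`, `d | 2^(v_2 n)`, and `k 2 = 1 + M` modulo `2^(v_2 n)`, so modulo `d`: `d | M`. -/
def COM_stmt : Prop :=
  ∀ (m n : ℕ) (R : Type) [CommRing R] [IsDomain R] (y ρ : R), n ≠ 0 → 2 ^ (m + 1) ∣ n → CycN n y → ρ ≠ 0 →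
    ∀ (k : ℕ → ℕ) (σ : ℕ → R ≃+* R), Fam n (2 ^ (m + 1)) y k σ → (∀ p ∈ n.primeFactors, σ p ρ = ρ) →
    ∀ (k' : ℕ) (s : R ≃+* R) (j : ℕ), s y = y ^ k' → s ρ = y ^ j * ρ → (y ^ j) ^ 2 ^ (m + 1) = 1

/-- Row FDS (medium; hypotheses IN1, PW2, GEN, FAM, COR, COM): the field descent.  PROOF.  FAM, COR: `ρ' = y^i ρ` fixed by all `σ p`; `Semi` holds for `ρ'` (see COR).  Let `Q a` := (`a` is prime to `n`, `a = 1` modulo `M = 2^(m+1)`, and
`s ρ' = ρ'` for every `s` with `s y = y^a`).  `Q 1` (`CycN.ext`).  `Q a, Q b → Q (a b)`: let `s1 y = y^a`, `s2 y = y^b` (CycN); if `s y = y^(a b)` then `s = s1 s2`.  `Q` only depends on `a` modulo `n`.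
Let `s y = y^k'`, `k' = 1` modulo `M` (`k'` is prime to `n` since `s y` is primitive).  GEN: it remains to show `Q a` for `a = k'` modulo `p^e`, `a = 1` modulo `n₁ = n / p^e`, `e = v_p n`.  `a` is prime to `n` and `1` modulo `M`
(`M` divides `n₁`, or `p = 2` and `M | 2^e`).  `p` odd: `s ρ' = y^j ρ'` (Semi), `(y^j)^(p^e) = 1` by IN1 and `(y^j)^M = 1` by COM, so `y^j = 1`.  `p = 2`: PW2: `a = (1 + M)^l = (k 2)^l` modulo `2^e`, and
modulo `n₁`; so `s = (σ 2)^l` (they agree at `y`) fixes `ρ'`. -/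
def FDS_stmt : Prop :=
  ∀ (m n : ℕ) (R : Type) [CommRing R] [IsDomain R] (y ρ : R), 1 ≤ m → n ≠ 0 → 2 ^ (m + 1) ∣ n → CycN n y → ρ ≠ 0 →
    Semi n (2 ^ (m + 1)) y ρ → ∃ i : ℕ, ∀ (k : ℕ) (s : R ≃+* R), s y = y ^ k → k ≡ 1 [MOD 2 ^ (m + 1)] →
      s (y ^ i * ρ) = y ^ i * ρ

/-! ## Block I: ideals -/

/-- Row ASC (short).  PROOF.  `Ideal.map s (I.map (algebraMap A B)) = I.map (s ∘ algebraMap) = I.map (algebraMap A B)` (`Ideal.map_map`, the two homomorphisms are equal), and it is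
`Ideal.span {s δ}` (`Ideal.map_span`); `Ideal.span_singleton_eq_span_singleton`. -/
def ASC_stmt : Prop :=
  ∀ (A B : Type) [CommRing A] [CommRing B] [IsDomain B] [Algebra A B] (I : Ideal A) (δ : B) (s : B ≃+* B),
    (∀ a : A, s (algebraMap A B a) = algebraMap A B a) → I.map (algebraMap A B) = Ideal.span {δ} → Associated (s δ) δ

/-- Row INJ (short-medium).  PROOF.  For example with `Ideal.relNorm_algebraMap`: `I^d = J^d`, `d = [L : K] > 0`, and ideals of a Dedekind domain are determined by their `d`-th powers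
(`pow_left_injective` for normalized factorizations; `Ideal` is a unique factorization monoid with unique units: `pow_dvd_pow_iff`); or faithful flatness, `Ideal.comap_map_eq_self_of_faithfullyFlat`. -/
def INJ_stmt : Prop :=
  ∀ (K L : Type) [Field K] [NumberField K] [Field L] [NumberField L] [Algebra K L] (I J : Ideal (𝓞 K)),
    I.map (algebraMap (𝓞 K) (𝓞 L)) = J.map (algebraMap (𝓞 K) (𝓞 L)) → I = J

/-- Row ODD (short-medium): there is an odd `u` different from all `± t` modulo `2^(m+1)`.  PROOF.  Otherwise the `2^m` odd numbers `u < 2^(m+1)` are all in the image of `s` under `t ↦ t mod 2^(m+1)` or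
`t ↦ - t mod 2^(m+1)`, at most `2 card s < 2^m` numbers. -/
def ODD_stmt : Prop :=
  ∀ (m : ℕ) (s : Multiset ℕ), 2 * Multiset.card s < 2 ^ m →
    ∃ u : ℕ, Odd u ∧ ∀ t ∈ s, ¬ ((2 : ℤ) ^ (m + 1) ∣ (u : ℤ) - t) ∧ ¬ 2 ^ (m + 1) ∣ u + t

/-- Row EXP (medium; hypotheses BAS, CPR, QUK, INJ, ODD): a prime ideal above `p` avoiding `α b(α)`.  PROOF.  `a = 2^(2^c)`, `N = 2^m`, `F = a^N + 1`, `f_t = a - z^t`, `α` = the product over `s`,
`A = α b(α)`, all mapped to `𝓞 L`.  If every prime ideal containing `p` contains `A`, then `A^k ∈ (p)` for some `k` (`Ideal.radical_eq_sInf`, `Ideal.mem_radical_iff`).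
Take `u` from ODD: `f_u` is coprime to `f_t` and to `b(f_t) = a - z^((2^(m+1) - 1) t)` for `t ∈ s` (CPR with `x = z`, `z^N = -1` from BAS; `b z = z^(2^(m+1) - 1)`), so to `A` and `A^k` (`IsCoprime.prod_right`, `IsCoprime.pow_right`, `IsCoprime.map`),
hence `f_u` and `p` are coprime in `𝓞 L`: `1 = p g + f_u h`.  Case `p | F`, `F = p D'`: `D' = F g + f_u D' h` is divisible by `f_u` (`f_u | F`: `f_u` is the image of `f_1` under an automorphism of `𝓞 K`, QUK) in `𝓞 L`, so in `𝓞 K`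
(INJ: `(f_u) + (D') = (f_u)` after extension), so `f_1 | D'` and `F | D'` by QUK, but `0 < D' < F`.  Case `p` does not divide `F`: `A | F^j` for some `j` (each `f_t`, `b(f_t)` divides `F`), so `p | F^(jk)` in `𝓞 L`, hence in
`ℤ` (`p | x` in `𝓞 L` with `x ∈ ℤ`: `x/p` is integral and rational; e.g. `(p)` is contained in a maximal ideal `P`, then `F^(jk) ∈ P`, `F ∈ P`, and `1 = u p + v F ∈ P`). -/
def EXP_stmt : Prop :=
  ∀ (m c : ℕ) (K L : Type) [Field K] [NumberField K] [IsCyclotomicExtension {2 ^ (m + 1)} ℚ K] [Field L] [NumberField L]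
    [Algebra K L] (z : 𝓞 K) (b : 𝓞 K ≃+* 𝓞 K), IsPrimitiveRoot z (2 ^ (m + 1)) → IsBar z b →
    ∀ s : Multiset ℕ, (∀ t ∈ s, Odd t) → 2 * Multiset.card s < 2 ^ m → ∀ p : ℕ, p.Prime →
      ∃ P : Ideal (𝓞 L), P.IsPrime ∧ (p : 𝓞 L) ∈ P ∧ algebraMap (𝓞 K) (𝓞 L)
        ((s.map (ff (2 ^ (2 ^ c)) z)).prod * b (s.map (ff (2 ^ (2 ^ c)) z)).prod) ∉ P

/-- Row DSC (medium; hypotheses BSN, BLE, BCJ, KRO, FIX, FDS, ASC, INJ): the descent for an ideal that becomes principal.  PROOF.  `y` a primitive `n`-th root in `𝓞 L` (`IsCyclotomicExtension.zeta`, `toInteger`), `CycN n y`, `bL` from BLE.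
`I * Q = (α)`, `I 𝓞 L = (δ)`; `δ | α` (image of `α` in `𝓞 L`), `α = δ ε`, and `Q 𝓞 L = (ε)` (cancel `(δ) ≠ 0`).  `ρ = bL δ * ε`, `ρ * bL ρ = α bL α` = image of `α bK α` (BCJ), `≠ 0`.
Let `s y = y^k`, `k = 1` modulo `M = 2^(m+1)`: `s` fixes the image `Z` of `z` (`Z = y^i`, `s Z = Z^k = Z`), so it fixes the image of `𝓞 K` pointwise (BSN for `K`, `CycN.ext`).  ASC: `s δ`, `s ε` are associated to `δ`, `ε`, and `s (bL δ) = bL (s δ)` to
`bL δ`.  So `s ρ = u ρ`, and from `s (ρ bL ρ) = ρ bL ρ`: `u * bL u = 1`, `u = y^j` (KRO; `n` is even).  The prime ideals `P` of the hypothesis do not contain `ρ` (`ρ | α bL α`).  So `Semi n M y ρ`; FDS: `y^i ρ` is fixed by these `s`; FIX: it is the image of `ρ₀ ∈ 𝓞 K`.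
`ρ₀ bK ρ₀ = α bK α` (BCJ, `bL (y^i) y^i = 1`, injectivity).  In `𝓞 L`: `(ρ₀)(δ) = (bL δ)(ε)(δ) = (bL δ)(α)` and `(bL δ)` is the extension of `I.map bK` (`Ideal.map_map`, BCJ); INJ. -/
def DSC_stmt : Prop :=
  ∀ (m n : ℕ) (K L : Type) [Field K] [NumberField K] [IsCyclotomicExtension {2 ^ (m + 1)} ℚ K] [Field L] [NumberField L]
    [IsCyclotomicExtension {n} ℚ L] [Algebra K L] (z : 𝓞 K) (b : 𝓞 K ≃+* 𝓞 K), 1 ≤ m → IsPrimitiveRoot z (2 ^ (m + 1)) →
    IsBar z b → n ≠ 0 → 2 ^ (m + 1) ∣ n → ∀ (α : 𝓞 K) (I : Ideal (𝓞 K)), α ≠ 0 → I ∣ Ideal.span {α} →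
    (∀ p : ℕ, p.Prime → p ∣ n → ∃ P : Ideal (𝓞 L), P.IsPrime ∧ (p : 𝓞 L) ∈ P ∧
      algebraMap (𝓞 K) (𝓞 L) (α * b α) ∉ P) →
    (I.map (algebraMap (𝓞 K) (𝓞 L))).IsPrincipal →
    ∃ ρ : 𝓞 K, ρ * b ρ = α * b α ∧ Ideal.span {ρ} * I = I.map b * Ideal.span {α}

/-! ## Block T: the theorems -/

/-- Row PRI (short; hypotheses BAS, QUK, QUO).  PROOF.  `N = 2^m`, `2 - z = ff 2 z 1`.  `2 - z ≠ 0` and it is not a unit (else it divides `1`, QUK: `F_m | 1`).  If it divides `u v`: `u = n1`, `v = n2` modulo `2 - z` (QUO), so `2 - z | n1 n2`,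
`F_m | n1 n2` (QUK), `F_m | n1` say (prime), and `2 - z | F_m | n1`, so `2 - z | u`. -/
def PRI_stmt : Prop :=
  ∀ (m : ℕ) (K : Type) [Field K] [NumberField K] [IsCyclotomicExtension {2 ^ (m + 1)} ℚ K] (z : 𝓞 K),
    IsPrimitiveRoot z (2 ^ (m + 1)) → Nat.Prime (fer m) → Prime (2 - z)

/-- Row PRC (short; hypotheses BAS, QUK): the converse.  PROOF.  `F_m > 1`.  If `F_m = u v` with `1 < u, v < F_m` (`Nat.prime_def_minFac`, or `Nat.exists_dvd_of_not_prime2`..): `2 - z | F_m = u v` (QUK), so `2 - z | u` say, so `F_m | u` (QUK), contradiction. -/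
def PRC_stmt : Prop :=
  ∀ (m : ℕ) (K : Type) [Field K] [NumberField K] [IsCyclotomicExtension {2 ^ (m + 1)} ℚ K] (z : 𝓞 K),
    IsPrimitiveRoot z (2 ^ (m + 1)) → Prime (2 - z) → Nat.Prime (fer m)

/-- Row FCT (short-medium).  PROOF.  `cyclotomic (2^(m+1)) R = X^(2^m) + 1` (`Polynomial.cyclotomic_prime_pow_eq_geom_sum`) is the product of `X - w` over the primitive `2^(m+1)`-th roots `w`
(`Polynomial.cyclotomic_eq_prod_X_sub_primitiveRoots`), which are the `z^t`, `t < 2^(m+1)` odd (`IsPrimitiveRoot.isPrimitiveRoot_iff`, `IsPrimitiveRoot.pow_inj`).  Evaluate at `a`. -/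
def FCT_stmt : Prop :=
  ∀ (m a : ℕ) (R : Type) [CommRing R] [IsDomain R] (z : R), IsPrimitiveRoot z (2 ^ (m + 1)) →
    ∏ t ∈ (range (2 ^ (m + 1))).filter (fun t => Odd t), ((a : R) - z ^ t) = (a : R) ^ 2 ^ m + 1

/-- Row DVN (short).  PROOF.  The image of a primitive `2^(m+1)`-th root of unity of `K` in `L` is primitive (`IsPrimitiveRoot.map_of_injective`), so `2^(m+1)` divides `torsionOrder L`
(`NumberField.Units.dvd_torsionOrder_of_isPrimitiveRoot`), which is `n` if `n` is even and `2 n` if `n` is odd (`IsCyclotomicExtension.Rat.torsionOrder_eq`); in the second case `4 | 2 n`, impossible. -/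
def DVN_stmt : Prop :=
  ∀ (m n : ℕ) (K L : Type) [Field K] [NumberField K] [IsCyclotomicExtension {2 ^ (m + 1)} ℚ K] [Field L] [NumberField L]
    [IsCyclotomicExtension {n} ℚ L] [Algebra K L], 1 ≤ m → n ≠ 0 → 2 ^ (m + 1) ∣ n

/-- Row CP1 (medium; hypotheses BAS, BIN, CPR, U, PRI, EXP, DSC): THE THEOREM for all `m`.  PROOF.  `m ≤ 4`: `F_m` is prime (`norm_num [fer]`), so `(2 - z)` is a prime ideal, so a maximal one (or: `I ∣ (2 - z)`, `Ideal.dvd_iff_le`, `Ideal.IsPrime.isMaximal`), `I = ⊤` or `(2 - z)`.  `m ≥ 4`: `b` from BIN.  EXP with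
`c = 0`, `s = {1}` (`2 < 2^m`, `ff 2 z 1 = 2 - z`), DSC with `α = 2 - z`: `ρ` with `ρ b ρ = (2 - z)(2 - b z)` and `(ρ) I = Ī (α)`, `Ī = I.map b`.  BAS: `ρ` is a combination of the `z^i`; U: `ρ = z^j (2 - z)` or `z^j (2 - b z)`.  `I Q = (α)`, so `Ī Q̄ = (b α)`.
`(α)`, `(b α)` are coprime (CPR, `b z = z^(2^(m+1) - 1)`, see IRR).  First case: `(α) I = Ī (α)`, `I = Ī` divides `(α)` and `(b α)`: `I = ⊤`.  Second case: `Ī Q̄ I = (b α) I = Ī (α) = Ī I Q`, `Q̄ = Q` (`I ≠ 0`), `Q = ⊤`, `I = (α)`. -/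
def CP1_stmt : Prop :=
  ∀ (m n : ℕ) (K L : Type) [Field K] [NumberField K] [IsCyclotomicExtension {2 ^ (m + 1)} ℚ K] [Field L] [NumberField L]
    [IsCyclotomicExtension {n} ℚ L] [Algebra K L] (z : 𝓞 K), IsPrimitiveRoot z (2 ^ (m + 1)) → n ≠ 0 →
    2 ^ (m + 1) ∣ n → ∀ I : Ideal (𝓞 K), I ∣ Ideal.span {2 - z} →
    (I.map (algebraMap (𝓞 K) (𝓞 L))).IsPrincipal → I = ⊤ ∨ I = Ideal.span {2 - z}

/-- Row CP2 (medium; hypotheses BAS, CO2, CLS, EXP, DSC): THE THEOREM for ideals dividing a product of few conjugates.  PROOF.  `a = 2^(2^c)`, `f_t = ff a z t`, `α` = the product over `s`, `α ≠ 0` (`f_t = 0` gives `a^(2^m) = -1`).  The bound gives `2 r < 2^m` and `m ≥ 1`.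
EXP and DSC: `ρ` with `ρ b ρ = α b α`, `(ρ) I = Ī (α)`.  CLS (with `f = ff a z` and CO2): `s₁ + s₂ = s`, `ρ` is associated to `∏_(s₁) f_t ∏_(s₂) b(f_t)`.  `s' = s₂`: `(α) = ∏_(s₁)(f_t) ∏_(s₂)(f_t)`; cancel `∏_(s₁)(f_t) ≠ 0`:
`∏_(s₂)(b f_t) I = Ī ∏_(s₂)(f_t)`. -/
def CP2_stmt : Prop :=
  ∀ (m c r n : ℕ) (K L : Type) [Field K] [NumberField K] [IsCyclotomicExtension {2 ^ (m + 1)} ℚ K] [Field L]
    [NumberField L] [IsCyclotomicExtension {n} ℚ L] [Algebra K L] (z : 𝓞 K) (b : 𝓞 K ≃+* 𝓞 K),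
    IsPrimitiveRoot z (2 ^ (m + 1)) → IsBar z b → 1 ≤ r → (32 * r) ^ ((2 ^ (2 ^ c) + 1) ^ (2 * r) + r) < 2 ^ m →
    n ≠ 0 → 2 ^ (m + 1) ∣ n → ∀ s : Multiset ℕ, Multiset.card s ≤ r → (∀ t ∈ s, Odd t) → ∀ I : Ideal (𝓞 K),
    I ∣ Ideal.span {(s.map (ff (2 ^ (2 ^ c)) z)).prod} → (I.map (algebraMap (𝓞 K) (𝓞 L))).IsPrincipal →
    ∃ s' ≤ s, I.map b * Ideal.span {(s'.map (ff (2 ^ (2 ^ c)) z)).prod} =
      I * Ideal.span {b (s'.map (ff (2 ^ (2 ^ c)) z)).prod}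

/-- The element has only one factorisation into irreducibles. -/
def Uniq {R : Type} [CommRing R] (x : R) : Prop :=
  ∀ s t : Multiset R, (∀ a ∈ s, Irreducible a) → (∀ a ∈ t, Irreducible a) → Associated s.prod x →
    Associated t.prod x → Multiset.Rel Associated s t

/-- Row UQF (short-medium): an element which is a product of primes has only one factorisation.  PROOF.  Let `g` be a multiset of primes, `s` of irreducibles, `s.prod` associated to `g.prod`.  Then every `a ∈ s` is prime: induction on `g` (generalizing `s`): `p ∈ g` divides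
`s.prod`, so some `a ∈ s` (`Prime.exists_mem_multiset_dvd`), `a` irreducible so associated to `p`, prime; erase both and cancel.  (`g = 0`: `s.prod` is a unit, `s = 0`.)  So for two such `s`, `t`: `prime_factors_unique`. -/
def UQF_stmt : Prop :=
  ∀ (R : Type) [CommRing R] [IsDomain R] (x : R) (g : Multiset R), (∀ a ∈ g, Prime a) → Associated g.prod x → Uniq x

/-- Row TF1 (medium; hypotheses BAS, QUK, IRR, PRI, FCT, UQF).  PROOF.  `F_m = ∏ (2 - z^t)` over the odd `t < 2^(m+1)` (FCT with `a = 2`), and `z^t` is again a primitive `2^(m+1)`-th root, so each `2 - z^t` is irreducible (IRR), and prime if `F_m` is prime (PRI).  (←) UQF with the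
multiset of the `2 - z^t`.  (→) If `F_m = u v`, `1 < u, v`: factor `u`, `v` into irreducibles (`WfDvdMonoid.exists_factors`, `𝓞 K` is noetherian; `u, v ≠ 0`): `s = s_u + s_v`.  The factorisation `t` by the `2 - z^t` contains `2 - z`; `Multiset.Rel`
gives an `x ∈ s` associated to `2 - z`, so `2 - z | u` or `| v`, and QUK (`2 - z = ff 2 z 1`): `F_m | u` or `v`, contradiction. -/
def TF1_stmt : Prop :=
  ∀ (m : ℕ) (K : Type) [Field K] [NumberField K] [IsCyclotomicExtension {2 ^ (m + 1)} ℚ K],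
    Uniq ((fer m : ℕ) : 𝓞 K) ↔ Nat.Prime (fer m)

/-- Row TF2 (short-medium; hypotheses PRC, FCT, CP1).  PROOF.  `z` a primitive `2^(m+1)`-th root in `𝓞 K`.  `F_m = ∏ (2 - z^t) ∈ P`, so `2 - z^t ∈ P` for some odd `t`; `z' = z^t` is a primitive `2^(m+1)`-th root too.  `P` divides `(2 - z')`; CP1: `P = ⊤` (no) or `P = (2 - z')`, so
`2 - z'` is prime (`Ideal.span_singleton_prime`, `≠ 0`); PRC. -/
def TF2_stmt : Prop :=
  ∀ (m n : ℕ) (K L : Type) [Field K] [NumberField K] [IsCyclotomicExtension {2 ^ (m + 1)} ℚ K] [Field L] [NumberField L]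
    [IsCyclotomicExtension {n} ℚ L] [Algebra K L], n ≠ 0 → 2 ^ (m + 1) ∣ n → ∀ P : Ideal (𝓞 K), P.IsPrime →
    ((fer m : ℕ) : 𝓞 K) ∈ P → (P.map (algebraMap (𝓞 K) (𝓞 L))).IsPrincipal → Nat.Prime (fer m)

/-- Row RE3 (medium-long; hypotheses BAS, BIN, CPR, CMP, ANI, RL2, RAR, CP2; model: `Pool/Agent/helper76/UF/RE2.lean`, the same for `L = K`).  No short relations between the classes in `L`.  PROOF.  `K` := `IntermediateField.adjoin ℚ {(z : L)}`, `IsCyclotomicExtension {2^(m+1)} ℚ K`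
(`IsPrimitiveRoot.intermediateField_adjoin_isCyclotomicExtension`), `zK ∈ 𝓞 K` the root of unity with image `z`.  Notation of RE2: `a`, `F = fer (m+c)`, `D D' = F`, `T`, `f_t = a - zK^t`, `I_t(E) = (E, f_t)` in `𝓞 K`, `u_t = |e_t|`, `D_t = D` or `D'`, `I = ∏ I_t(D_t)^(u_t)` divides
`∏ (f_t)^(u_t)`, and its extension to `𝓞 L` is principal (the extension of `I_t(D)` is `P t`, of `I_t(D) I_t(D') = (f_t)` is principal).  CP2: `s' ≤ s`, `Ī ∏_(s')(f_t) = I ∏_(s')(b f_t)`, `b f_t = f_(M-t)`, `M = 2^(m+1)`.  With `c_t = count t s'` (`≤ u_t`, and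
reindexing `t ↦ M - t`): `∏_t A_t = ∏_t B_t`, `A_t = I_t(D_(M-t))^(u_(M-t)) (f_t)^(c_t)`, `B_t = I_t(D_t)^(u_t) (f_t)^(c_(M-t))`.  Both `A_t`, `B_t` divide powers of `(f_t)`, pairwise coprime (CPR), so `A_t = B_t` (as in RL1, RL2: `A_t` divides the product of the `B`'s and is coprime to
the `B_u`, `u ≠ t`).  Norms (ANI): `D_(M-t)^(u_(M-t)) F^(c_t) = D_t^(u_t) F^(c_(M-t))`.  If `D_t = D_(M-t)`: `D^|u_(M-t) - u_t|` is a power of `F`, so `u_t = u_(M-t)` (RAR) and `e_t = e_(M-t)`.  If `D_t = D`, `D_(M-t) = D'`: multiply by `D^(u_(M-t))`: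
`F^(u_(M-t) + c_t) = D^(u_t + u_(M-t)) F^(c_(M-t))`, so `u_t + u_(M-t) = 0` (RAR).  The same for `D_t = D'`. -/
def RE3_stmt : Prop :=
  ∀ (m c r n : ℕ) (L : Type) [Field L] [NumberField L] [IsCyclotomicExtension {n} ℚ L] (z : 𝓞 L),
    IsPrimitiveRoot z (2 ^ (m + 1)) → n ≠ 0 → 2 ^ (m + 1) ∣ n → 1 ≤ r →
    (32 * r) ^ ((2 ^ (2 ^ c) + 1) ^ (2 * r) + r) < 2 ^ m →
    ∀ D : ℕ, D ∣ fer (m + c) → 1 < D → D < fer (m + c) →
    ∀ P : ℕ → (Ideal (𝓞 L))⁰, (∀ t, (P t : Ideal (𝓞 L)) = Ideal.span {(D : 𝓞 L), ff (2 ^ (2 ^ c)) z t}) →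
    ∀ e : ℕ → ℤ, ∑ t ∈ (range (2 ^ (m + 1))).filter (fun t => Odd t), |e t| ≤ r →
      ∏ t ∈ (range (2 ^ (m + 1))).filter (fun t => Odd t), (ClassGroup.mk0 (P t)) ^ (e t) = 1 →
      ∀ t, Odd t → t < 2 ^ (m + 1) → e t = e (2 ^ (m + 1) - t)

end Pool.Agent.UFG
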